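import Pool.Agent.U439.SA.LW2abs
import Pool.Agent.U167.SA.Stm8
import Pool.Agent.U97.SA.PERC

set_option autoImplicit false

/-! Project SA, package LW2: the patterns are proportional to the contacts in `L²` -/

namespace Pool.Agent.U439.SA

open H974 Finset Filter Topology MeasureTheory
open Pool.Agent.U167.SA

theorem inB_mono' {r s : ℕ} (h : r ≤ s) {v : Vtx} (hv : inB r v) : inB s v := by
  have h' : (r:ℤ) ≤ s := by exact_mod_cast h
  unfold inB inR at *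
  obtain ⟨⟨h1, h2⟩, h3, h4⟩ := hv
  exact ⟨⟨by omega, by omega⟩, by omega, by omega⟩

theorem fb_nonneg (n k l : ℕ) : 0 ≤ fb n k l := by
  unfold fb
  split_ifs
  · norm_num
  · positivity

theorem NN_eq (m : ℕ) (W : Finset Edg → Prop) (A : Set Vtx) (n : ℕ) (ω : Edg → Bool) :
    NN m W A n ω = ∑ k ∈ range n, (XE m W A n (k:ℤ)).indicator (fun _ => (1:ℝ)) ω := by
  classical
  unfold NN
  rw [Finset.card_filter]
  push_cast
  refine Finset.sum_congr rfl fun k _ => ?_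
  by_cases h : ω ∈ XE m W A n (k:ℤ)
  · simp [h]
  · simp [h]

/-- the a priori bound -/
theorem apriori (hInd : IndStm) (m m' : ℕ) (W W' : Finset Edg → Prop) (A A' : Set Vtx)
    (C C' : ℝ) (hC : 0 ≤ C)
    (h1 : ∀ r : ℕ, PX D0 ∅ A {v | ¬ inB r v} [] ≤ C * ((r:ℝ) + 1)^(-((1:ℝ)/3)))
    (h2 : ∀ r : ℕ, PX D0 ∅ A' {v | ¬ inB r v} [] ≤ C' * ((r:ℝ) + 1)^(-((1:ℝ)/3)))
    (n k l : ℕ) (hk : k < n) (hl : l < n) :
    percE.real (XE m W A n k ∩ XE m' W' A' n l) ≤ max 1 (C * C') * fb n k l := by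
  unfold fb
  split_ifs with h
  · have : percE.real (XE m W A n k ∩ XE m' W' A' n l) ≤ 1 := measureReal_le_one
    have h3 : (1:ℝ) ≤ max 1 (C * C') := le_max_left _ _
    linarith
  · set r : ℕ := min ((((k:ℤ) - l).natAbs - 2) / 2) (n - 1 - k) with hr
    set r' : ℕ := min ((((k:ℤ) - l).natAbs - 2) / 2) (n - 1 - l) with hr'
    have e1 : r ≤ n - 1 - k := min_le_right _ _
    have e2 : r' ≤ n - 1 - l := min_le_right _ _
    have e3 : r ≤ (((k:ℤ) - l).natAbs - 2) / 2 := min_le_left _ _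
    have e4 : r' ≤ (((k:ℤ) - l).natAbs - 2) / 2 := min_le_left _ _
    have e5 : (r:ℤ) + r' + 2 ≤ |(k:ℤ) - l| := by
      rw [Int.abs_eq_natAbs] at h ⊢
      omega
    have h3 := hInd m m' W W' A A' n k l r r' hk hl e1 e2 e5
    have hx : 0 ≤ ((r:ℝ) + 1)^(-((1:ℝ)/3)) := by positivity
    have hx' : 0 ≤ ((r':ℝ) + 1)^(-((1:ℝ)/3)) := by positivity
    have hP' : 0 ≤ PX D0 ∅ A' {v | ¬ inB r' v} [] := measureReal_nonneg
    have h4 : PX D0 ∅ A {v | ¬ inB r v} [] * PX D0 ∅ A' {v | ¬ inB r' v} [] ≤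
        (C * ((r:ℝ) + 1)^(-((1:ℝ)/3))) * (C' * ((r':ℝ) + 1)^(-((1:ℝ)/3))) :=
      mul_le_mul (h1 r) (h2 r') hP' (mul_nonneg hC hx)
    have h5 : (C * ((r:ℝ) + 1)^(-((1:ℝ)/3))) * (C' * ((r':ℝ) + 1)^(-((1:ℝ)/3))) =
        (C * C') * (((r:ℝ) + 1)^(-((1:ℝ)/3)) * ((r':ℝ) + 1)^(-((1:ℝ)/3))) := by ring
    have h6 : (C * C') * (((r:ℝ) + 1)^(-((1:ℝ)/3)) * ((r':ℝ) + 1)^(-((1:ℝ)/3))) ≤
        max 1 (C * C') * (((r:ℝ) + 1)^(-((1:ℝ)/3)) * ((r':ℝ) + 1)^(-((1:ℝ)/3))) :=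
      mul_le_mul_of_nonneg_right (le_max_right _ _) (mul_nonneg hx hx')
    linarith

theorem t_LW2 : LW2Stm := by
  intro hPos hMea hTwo hBnd hInd hSum α hα hF c0 hc0 hlim0 m W A c hA hlim
  obtain ⟨r1, hr1⟩ := hA
  have hc : 0 ≤ c := ge_of_tendsto' hlim fun n =>
    mul_nonneg measureReal_nonneg (Real.rpow_nonneg (Nat.cast_nonneg n) _)
  have hms : m ≤ max m r1 := le_max_left _ _
  have hAs : ∀ v ∈ A, inB (max m r1) v := fun v hv => inB_mono' (le_max_right _ _) (hr1 v hv)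
  have h0s : ∀ v ∈ ({((0:ℤ), (0:ℤ))} : Set Vtx), inB (max m r1) v := by
    intro v hv
    rw [Set.mem_singleton_iff] at hv
    subst hv
    exact ⟨⟨neg_nonpos.2 (Int.natCast_nonneg _), Int.natCast_nonneg _⟩,
      ⟨neg_nonpos.2 (Int.natCast_nonneg _), Int.natCast_nonneg _⟩⟩
  generalize hs : max m r1 = s at hms hAs h0s
  have hκ0 : 0 ≤ c / c0 := div_nonneg hc hc0.le
  have hcc : c0 / c0 = 1 := div_self hc0.ne'
  obtain ⟨C1, a1, hC1, h1⟩ := hTwo hPos hMea α hα hF c0 hc0 hlim0 s m m W W A A c c hms hms hAs hAs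
    hlim hlim
  obtain ⟨C2, a2, hC2, h2⟩ := hTwo hPos hMea α hα hF c0 hc0 hlim0 s m 0 W (fun _ => True) A
    {((0:ℤ), (0:ℤ))} c c0 hms (Nat.zero_le _) hAs h0s hlim hlim0
  obtain ⟨C3, a3, hC3, h3⟩ := hTwo hPos hMea α hα hF c0 hc0 hlim0 s 0 m (fun _ => True) W
    {((0:ℤ), (0:ℤ))} A c0 c (Nat.zero_le _) hms h0s hAs hlim0 hlim
  obtain ⟨CA, hCA, hbA⟩ := hBnd s A hAs
  obtain ⟨CZ, hCZ, hbZ⟩ := hBnd s {((0:ℤ), (0:ℤ))} h0s
  obtain ⟨hS1, hS2⟩ := hSum
  generalize hκ : c / c0 = κ at *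
  set K : ℝ := max 1 (CA * CA) with hK
  set K0 : ℝ := max 1 (CZ * CZ) with hK0
  have hK1 : 1 ≤ K := le_max_left _ _
  have hK01 : 1 ≤ K0 := le_max_left _ _
  refine abs_lim (fun n => ∫ ω, (NN m W A n ω - κ * N0 n ω)^2 ∂percE)
    (fun n k l => percE.real (XE m W A n k ∩ XE m W A n l) -
      κ * percE.real (XE m W A n k ∩ X0 n l) - κ * percE.real (X0 n k ∩ XE m W A n l) +
      κ^2 * percE.real (X0 n k ∩ X0 n l))
    fb (fun n k l => (rh s n k l : ℝ)) α (K + κ^2 * K0) ((C1 + κ * C2 + κ * C3) * K0)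
    (max (max (a1:ℝ) a2) a3) hα (by positivity) (by positivity) fb_nonneg ?_ ?_ ?_ ?_ hS1
    (hS2 s)
  · intro n
    have := integral_sq percE (fun k : ℕ => XE m W A n (k:ℤ)) (fun k : ℕ => X0 n (k:ℤ))
      (fun k => (hMea m W A n k).1) (fun k => (hMea 0 (fun _ => True) _ n k).1) κ n
    rw [← this]
    refine integral_congr_ae (Filter.Eventually.of_forall fun ω => ?_)
    simp only []
    rw [NN_eq]
    unfold N0
    rw [NN_eq]
    rfl
  · intro n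
    exact integral_nonneg fun ω => sq_nonneg _
  · intro n k l hk hl
    have e1 := apriori hInd m m W W A A CA CA hCA hbA hbA n k l hk hl
    have e2 := apriori hInd 0 0 (fun _ => True) (fun _ => True) _ _ CZ CZ hCZ hbZ hbZ n k l hk hl
    have e3 : 0 ≤ percE.real (XE m W A n k ∩ X0 n l) := measureReal_nonneg
    have e4 : 0 ≤ percE.real (X0 n k ∩ XE m W A n l) := measureReal_nonneg
    have e5 : percE.real (X0 n k ∩ X0 n l) ≤ K0 * fb n k l := e2
    have e6 : κ^2 * percE.real (X0 n k ∩ X0 n l) ≤ κ^2 * (K0 * fb n k l) :=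
      mul_le_mul_of_nonneg_left e5 (sq_nonneg κ)
    have e7 := mul_nonneg hκ0 e3
    have e8 := mul_nonneg hκ0 e4
    have e9 : (K + κ^2 * K0) * fb n k l = K * fb n k l + κ^2 * (K0 * fb n k l) := by ring
    linarith
  · intro n k l hk hl hr
    have r1' : (a1:ℤ) ≤ rh s n k l := by
      have : (a1:ℝ) ≤ (rh s n k l : ℝ) := le_trans (le_trans (le_max_left _ _) (le_max_left _ _)) hr
      exact_mod_cast this
    have r2' : (a2:ℤ) ≤ rh s n k l := by
      have : (a2:ℝ) ≤ (rh s n k l : ℝ) := le_trans (le_trans (le_max_right _ _) (le_max_left _ _)) hr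
      exact_mod_cast this
    have r3' : (a3:ℤ) ≤ rh s n k l := by
      have : (a3:ℝ) ≤ (rh s n k l : ℝ) := le_trans (le_max_right _ _) hr
      exact_mod_cast this
    have f1 := h1 n k l hk hl r1'
    have f2 := h2 n k l hk hl r2'
    have f3 := h3 n k l hk hl r3'
    rw [hcc, mul_one] at f2
    rw [hcc, one_mul] at f3
    have f2' : |percE.real (XE m W A n k ∩ X0 n l) - κ * percE.real (X0 n k ∩ X0 n l)| ≤
      C2 * (rh s n k l : ℝ)^(-α) * percE.real (X0 n k ∩ X0 n l) := f2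
    have f3' : |percE.real (X0 n k ∩ XE m W A n l) - κ * percE.real (X0 n k ∩ X0 n l)| ≤
      C3 * (rh s n k l : ℝ)^(-α) * percE.real (X0 n k ∩ X0 n l) := f3
    have e2 := apriori hInd 0 0 (fun _ => True) (fun _ => True) _ _ CZ CZ hCZ hbZ hbZ n k l hk hl
    have e5 : percE.real (X0 n k ∩ X0 n l) ≤ K0 * fb n k l := e2
    set P := percE.real (X0 n k ∩ X0 n l) with hP
    have hrh : (0:ℝ) ≤ (rh s n k l : ℝ) := by
      have : (0:ℤ) ≤ rh s n k l := le_trans (Int.natCast_nonneg _) r1'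
      exact_mod_cast this
    have hx : 0 ≤ (rh s n k l : ℝ)^(-α) := Real.rpow_nonneg hrh _
    set x := (rh s n k l : ℝ)^(-α) with hxd
    obtain ⟨_, g1⟩ := abs_le.1 f1
    obtain ⟨g2, _⟩ := abs_le.1 f2'
    obtain ⟨g3, _⟩ := abs_le.1 f3'
    have g2' := mul_le_mul_of_nonneg_left g2 hκ0
    have g3' := mul_le_mul_of_nonneg_left g3 hκ0
    have g4 : (C1 + κ * C2 + κ * C3) * x * P ≤ (C1 + κ * C2 + κ * C3) * x * (K0 * fb n k l) :=
      mul_le_mul_of_nonneg_left e5 (mul_nonneg (by positivity) hx)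
    have g5 : (C1 + κ * C2 + κ * C3) * x * (K0 * fb n k l) =
        (C1 + κ * C2 + κ * C3) * K0 * x * fb n k l := by ring
    nlinarith

end Pool.Agent.U439.SA
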