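import Pool.Agent.U439.SA.LW2

set_option autoImplicit false

/-! Project SA, package LW2W: the weighted form of LW2, uniformly in the weights -/

namespace Pool.Agent.U439.SA

open H974 Finset Filter Topology MeasureTheory
open Pool.Agent.U167.SA

theorem integral_sq_w {Ω : Type*} [MeasurableSpace Ω] (μ : Measure Ω) [IsProbabilityMeasure μ]
    (X Z : ℕ → Set Ω) (hX : ∀ k, MeasurableSet (X k)) (hZ : ∀ k, MeasurableSet (Z k)) (κ : ℝ)
    (a : ℕ → ℝ) (n : ℕ) :
    ∫ ω, (∑ k ∈ range n, a k * ((X k).indicator (fun _ => (1:ℝ)) ω -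
      κ * (Z k).indicator (fun _ => (1:ℝ)) ω))^2 ∂μ =
    ∑ k ∈ range n, ∑ l ∈ range n, a k * a l * (μ.real (X k ∩ X l) - κ * μ.real (X k ∩ Z l) -
      κ * μ.real (Z k ∩ X l) + κ^2 * μ.real (Z k ∩ Z l)) := by
  have hind : ∀ S : Set Ω, MeasurableSet S → Integrable (S.indicator (fun _ => (1:ℝ))) μ :=
    fun S hS => (integrable_const _).indicator hS
  have hint : ∀ S : Set Ω, MeasurableSet S → ∫ ω, S.indicator (fun _ => (1:ℝ)) ω ∂μ = μ.real S := by
    intro S hS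
    rw [integral_indicator hS]
    simp
  have hmul : ∀ (S T : Set Ω) (ω : Ω), S.indicator (fun _ => (1:ℝ)) ω *
      T.indicator (fun _ => (1:ℝ)) ω = (S ∩ T).indicator (fun _ => (1:ℝ)) ω := by
    intro S T ω
    by_cases hS : ω ∈ S
    · by_cases hT : ω ∈ T
      · simp [hS, hT]
      · simp [hS, hT]
    · simp [hS]
  have hpt : ∀ ω, (∑ k ∈ range n, a k * ((X k).indicator (fun _ => (1:ℝ)) ω -
      κ * (Z k).indicator (fun _ => (1:ℝ)) ω))^2 =
      ∑ k ∈ range n, ∑ l ∈ range n, a k * a l * ((X k ∩ X l).indicator (fun _ => (1:ℝ)) ω -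
        κ * (X k ∩ Z l).indicator (fun _ => (1:ℝ)) ω -
        κ * (Z k ∩ X l).indicator (fun _ => (1:ℝ)) ω +
        κ^2 * (Z k ∩ Z l).indicator (fun _ => (1:ℝ)) ω) := by
    intro ω
    rw [sq, Finset.sum_mul_sum]
    refine Finset.sum_congr rfl fun k _ => Finset.sum_congr rfl fun l _ => ?_
    rw [← hmul, ← hmul, ← hmul, ← hmul]
    ring
  have hT0 : ∀ k l, Integrable (fun ω => (X k ∩ X l).indicator (fun _ => (1:ℝ)) ω -
        κ * (X k ∩ Z l).indicator (fun _ => (1:ℝ)) ω -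
        κ * (Z k ∩ X l).indicator (fun _ => (1:ℝ)) ω +
        κ^2 * (Z k ∩ Z l).indicator (fun _ => (1:ℝ)) ω) μ := fun k l =>
    (((hind _ ((hX k).inter (hX l))).sub ((hind _ ((hX k).inter (hZ l))).const_mul κ)).sub
      ((hind _ ((hZ k).inter (hX l))).const_mul κ)).add
      ((hind _ ((hZ k).inter (hZ l))).const_mul (κ^2))
  have hT : ∀ k l, Integrable (fun ω => a k * a l * ((X k ∩ X l).indicator (fun _ => (1:ℝ)) ω -
        κ * (X k ∩ Z l).indicator (fun _ => (1:ℝ)) ω -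
        κ * (Z k ∩ X l).indicator (fun _ => (1:ℝ)) ω +
        κ^2 * (Z k ∩ Z l).indicator (fun _ => (1:ℝ)) ω)) μ := fun k l =>
    (hT0 k l).const_mul (a k * a l)
  rw [integral_congr_ae (Filter.Eventually.of_forall hpt)]
  rw [integral_finsetSum _ (fun k _ => integrable_finsetSum _ fun l _ => hT k l)]
  refine Finset.sum_congr rfl fun k _ => ?_
  rw [integral_finsetSum _ (fun l _ => hT k l)]
  refine Finset.sum_congr rfl fun l _ => ?_
  rw [integral_const_mul]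
  congr 1
  have i1 : Integrable (fun ω => (X k ∩ X l).indicator (fun _ => (1:ℝ)) ω) μ :=
    hind _ ((hX k).inter (hX l))
  have i2 : Integrable (fun ω => κ * (X k ∩ Z l).indicator (fun _ => (1:ℝ)) ω) μ :=
    (hind _ ((hX k).inter (hZ l))).const_mul κ
  have i3 : Integrable (fun ω => κ * (Z k ∩ X l).indicator (fun _ => (1:ℝ)) ω) μ :=
    (hind _ ((hZ k).inter (hX l))).const_mul κ
  have i4 : Integrable (fun ω => κ^2 * (Z k ∩ Z l).indicator (fun _ => (1:ℝ)) ω) μ :=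
    (hind _ ((hZ k).inter (hZ l))).const_mul (κ^2)
  have i12 : Integrable (fun ω => (X k ∩ X l).indicator (fun _ => (1:ℝ)) ω -
        κ * (X k ∩ Z l).indicator (fun _ => (1:ℝ)) ω) μ := i1.sub i2
  have i123 : Integrable (fun ω => (X k ∩ X l).indicator (fun _ => (1:ℝ)) ω -
        κ * (X k ∩ Z l).indicator (fun _ => (1:ℝ)) ω -
        κ * (Z k ∩ X l).indicator (fun _ => (1:ℝ)) ω) μ := i12.sub i3
  rw [integral_add i123 i4, integral_sub i12 i3, integral_sub i1 i2,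
    integral_const_mul, integral_const_mul, integral_const_mul,
    hint _ ((hX k).inter (hX l)), hint _ ((hX k).inter (hZ l)), hint _ ((hZ k).inter (hX l)),
    hint _ ((hZ k).inter (hZ l))]

/-- **LW2W**: the weighted form of `LW2Stm`, uniform in the weights -/
def LW2WStm : Prop := PosStm → MeaStm → TwoStm → BndStm → IndStm → SumStm →
    ∀ α : ℝ, 0 < α → FactP D0 α → ∀ c0 : ℝ, 0 < c0 →
    Tendsto (fun n : ℕ => PE 0 (fun _ => True) D0 {((0:ℤ), (0:ℤ))} n * (n:ℝ)^((1:ℝ)/3)) atTop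
      (𝓝 c0) →
    ∀ (m : ℕ) (W : Finset Edg → Prop) (A : Set Vtx) (c : ℝ), (∃ r, ∀ v ∈ A, inB r v) →
    Tendsto (fun n : ℕ => PE m W D0 A n * (n:ℝ)^((1:ℝ)/3)) atTop (𝓝 c) →
    ∀ ε : ℝ, 0 < ε → ∃ N : ℕ, ∀ n : ℕ, N ≤ n → ∀ a : ℕ → ℝ, (∀ k, k < n → |a k| ≤ 1) →
      ∫ ω, (∑ k ∈ range n, a k * ((XE m W A n (k:ℤ)).indicator (1 : (Edg → Bool) → ℝ) ω -
        c / c0 * (X0 n (k:ℤ)).indicator (1 : (Edg → Bool) → ℝ) ω))^2 ∂percE ≤
        ε * (2 * (n:ℝ) + 1)^((4:ℝ)/3)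

theorem t_LW2W : LW2WStm := by
  intro hPos hMea hTwo hBnd hInd hSum α hα hF c0 hc0 hlim0 m W A c hA hlim ε hε
  obtain ⟨r1, hr1⟩ := hA
  have hc : 0 ≤ c := ge_of_tendsto' hlim fun n =>
    mul_nonneg measureReal_nonneg (Real.rpow_nonneg (Nat.cast_nonneg n) _)
  have hms : m ≤ max m r1 := le_max_left _ _
  have hAs : ∀ v ∈ A, inB (max m r1) v := fun v hv => inB_mono' (le_max_right _ _) (hr1 v hv)
  have h0s : ∀ v ∈ ({((0:ℤ), (0:ℤ))} : Set Vtx), inB (max m r1) v := by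
    intro v hv
    rw [Set.mem_singleton_iff] at hv
    subst hv
    exact ⟨⟨neg_nonpos.2 (Int.natCast_nonneg _), Int.natCast_nonneg _⟩,
      ⟨neg_nonpos.2 (Int.natCast_nonneg _), Int.natCast_nonneg _⟩⟩
  generalize hs : max m r1 = s at hms hAs h0s
  have hκ0 : 0 ≤ c / c0 := div_nonneg hc hc0.le
  have hcc : c0 / c0 = 1 := div_self hc0.ne'
  obtain ⟨C1, a1, hC1, h1⟩ := hTwo hPos hMea α hα hF c0 hc0 hlim0 s m m W W A A c c hms hms hAs hAs
    hlim hlim
  obtain ⟨C2, a2, hC2, h2⟩ := hTwo hPos hMea α hα hF c0 hc0 hlim0 s m 0 W (fun _ => True) A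
    {((0:ℤ), (0:ℤ))} c c0 hms (Nat.zero_le _) hAs h0s hlim hlim0
  obtain ⟨C3, a3, hC3, h3⟩ := hTwo hPos hMea α hα hF c0 hc0 hlim0 s 0 m (fun _ => True) W
    {((0:ℤ), (0:ℤ))} A c0 c (Nat.zero_le _) hms h0s hAs hlim0 hlim
  obtain ⟨CA, hCA, hbA⟩ := hBnd s A hAs
  obtain ⟨CZ, hCZ, hbZ⟩ := hBnd s {((0:ℤ), (0:ℤ))} h0s
  obtain ⟨hS1, hS2⟩ := hSum
  generalize hκ : c / c0 = κ at *
  set K : ℝ := max 1 (CA * CA) with hK
  set K0 : ℝ := max 1 (CZ * CZ) with hK0
  set K1 : ℝ := max 1 (CA * CZ) with hK1d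
  set K2 : ℝ := max 1 (CZ * CA) with hK2d
  have hK1 : 1 ≤ K := le_max_left _ _
  have hK01 : 1 ≤ K0 := le_max_left _ _
  have hK11 : 1 ≤ K1 := le_max_left _ _
  have hK21 : 1 ≤ K2 := le_max_left _ _
  have hmain := abs_lim (fun n => ∑ k ∈ range n, ∑ l ∈ range n,
      |percE.real (XE m W A n k ∩ XE m W A n l) -
      κ * percE.real (XE m W A n k ∩ X0 n l) - κ * percE.real (X0 n k ∩ XE m W A n l) +
      κ^2 * percE.real (X0 n k ∩ X0 n l)|)
    (fun n k l => |percE.real (XE m W A n k ∩ XE m W A n l) -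
      κ * percE.real (XE m W A n k ∩ X0 n l) - κ * percE.real (X0 n k ∩ XE m W A n l) +
      κ^2 * percE.real (X0 n k ∩ X0 n l)|)
    fb (fun n k l => (rh s n k l : ℝ)) α (K + κ * K1 + κ * K2 + κ^2 * K0)
    ((C1 + κ * C2 + κ * C3) * K0)
    (max (max (a1:ℝ) a2) a3) hα (by positivity) (by positivity) fb_nonneg (fun n => rfl)
    (fun n => Finset.sum_nonneg fun k _ => Finset.sum_nonneg fun l _ => abs_nonneg _) ?_ ?_ hS1
    (hS2 s)
  · -- conclusion
    rw [Metric.tendsto_atTop] at hmain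
    obtain ⟨N, hN⟩ := hmain ε hε
    refine ⟨N, fun n hn a ha => ?_⟩
    have hn' := hN n hn
    have hbpos : (0:ℝ) < (2 * (n:ℝ) + 1)^((4:ℝ)/3) :=
      Real.rpow_pos_of_pos (by positivity) _
    rw [Real.dist_eq, sub_zero, abs_of_nonneg (div_nonneg
      (Finset.sum_nonneg fun k _ => Finset.sum_nonneg fun l _ => abs_nonneg _) hbpos.le),
      div_lt_iff₀ hbpos] at hn'
    have hi := integral_sq_w percE (fun k : ℕ => XE m W A n (k:ℤ)) (fun k : ℕ => X0 n (k:ℤ))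
      (fun k => (hMea m W A n k).1) (fun k => (hMea 0 (fun _ => True) _ n k).1) κ a n
    refine le_trans (le_of_eq hi) (le_trans ?_ hn'.le)
    refine Finset.sum_le_sum fun k hk => Finset.sum_le_sum fun l hl => ?_
    have hk' := mem_range.1 hk
    have hl' := mem_range.1 hl
    refine (le_abs_self _).trans ?_
    rw [abs_mul, abs_mul]
    have e1 : |a k| * |a l| ≤ 1 := by
      have := mul_le_mul (ha k hk') (ha l hl') (abs_nonneg _) zero_le_one
      simpa using this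
    exact mul_le_of_le_one_left (abs_nonneg _) e1
  · intro n k l hk hl
    have e1 := apriori hInd m m W W A A CA CA hCA hbA hbA n k l hk hl
    have e2 := apriori hInd 0 0 (fun _ => True) (fun _ => True) _ _ CZ CZ hCZ hbZ hbZ n k l hk hl
    have e3 := apriori hInd m 0 W (fun _ => True) A _ CA CZ hCA hbA hbZ n k l hk hl
    have e4 := apriori hInd 0 m (fun _ => True) W _ A CZ CA hCZ hbZ hbA n k l hk hl
    have e5 : percE.real (X0 n k ∩ X0 n l) ≤ K0 * fb n k l := e2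
    have e5' : percE.real (XE m W A n k ∩ X0 n l) ≤ K1 * fb n k l := e3
    have e5'' : percE.real (X0 n k ∩ XE m W A n l) ≤ K2 * fb n k l := e4
    have e6 : κ^2 * percE.real (X0 n k ∩ X0 n l) ≤ κ^2 * (K0 * fb n k l) :=
      mul_le_mul_of_nonneg_left e5 (sq_nonneg κ)
    have e6' : κ * percE.real (XE m W A n k ∩ X0 n l) ≤ κ * (K1 * fb n k l) :=
      mul_le_mul_of_nonneg_left e5' hκ0
    have e6'' : κ * percE.real (X0 n k ∩ XE m W A n l) ≤ κ * (K2 * fb n k l) :=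
      mul_le_mul_of_nonneg_left e5'' hκ0
    have p1 : 0 ≤ percE.real (XE m W A n k ∩ XE m W A n l) := measureReal_nonneg
    have p2 : 0 ≤ κ * percE.real (XE m W A n k ∩ X0 n l) := mul_nonneg hκ0 measureReal_nonneg
    have p3 : 0 ≤ κ * percE.real (X0 n k ∩ XE m W A n l) := mul_nonneg hκ0 measureReal_nonneg
    have p4 : 0 ≤ κ^2 * percE.real (X0 n k ∩ X0 n l) :=
      mul_nonneg (sq_nonneg κ) measureReal_nonneg
    have hf0 := fb_nonneg n k l
    have q1 : 0 ≤ K * fb n k l := mul_nonneg (by linarith) hf0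
    have q2 : 0 ≤ κ * (K1 * fb n k l) := mul_nonneg hκ0 (mul_nonneg (by linarith) hf0)
    have q3 : 0 ≤ κ * (K2 * fb n k l) := mul_nonneg hκ0 (mul_nonneg (by linarith) hf0)
    have q4 : 0 ≤ κ^2 * (K0 * fb n k l) :=
      mul_nonneg (sq_nonneg κ) (mul_nonneg (by linarith) hf0)
    have e9 : (K + κ * K1 + κ * K2 + κ^2 * K0) * fb n k l = K * fb n k l + κ * (K1 * fb n k l) +
      κ * (K2 * fb n k l) + κ^2 * (K0 * fb n k l) := by ring
    rw [e9, abs_le]
    constructor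
    · linarith
    · linarith
  · intro n k l hk hl hr
    have r1' : (a1:ℤ) ≤ rh s n k l := by
      have : (a1:ℝ) ≤ (rh s n k l : ℝ) := le_trans (le_trans (le_max_left _ _) (le_max_left _ _)) hr
      exact_mod_cast this
    have r2' : (a2:ℤ) ≤ rh s n k l := by
      have : (a2:ℝ) ≤ (rh s n k l : ℝ) := le_trans (le_trans (le_max_right _ _) (le_max_left _ _)) hr
      exact_mod_cast this
    have r3' : (a3:ℤ) ≤ rh s n k l := by
      have : (a3:ℝ) ≤ (rh s n k l : ℝ) := le_trans (le_max_right _ _) hr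
      exact_mod_cast this
    have f1 := h1 n k l hk hl r1'
    have f2 := h2 n k l hk hl r2'
    have f3 := h3 n k l hk hl r3'
    rw [hcc, mul_one] at f2
    rw [hcc, one_mul] at f3
    have f2' : |percE.real (XE m W A n k ∩ X0 n l) - κ * percE.real (X0 n k ∩ X0 n l)| ≤
      C2 * (rh s n k l : ℝ)^(-α) * percE.real (X0 n k ∩ X0 n l) := f2
    have f3' : |percE.real (X0 n k ∩ XE m W A n l) - κ * percE.real (X0 n k ∩ X0 n l)| ≤
      C3 * (rh s n k l : ℝ)^(-α) * percE.real (X0 n k ∩ X0 n l) := f3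
    have e2 := apriori hInd 0 0 (fun _ => True) (fun _ => True) _ _ CZ CZ hCZ hbZ hbZ n k l hk hl
    have e5 : percE.real (X0 n k ∩ X0 n l) ≤ K0 * fb n k l := e2
    set P := percE.real (X0 n k ∩ X0 n l) with hP
    have hrh : (0:ℝ) ≤ (rh s n k l : ℝ) := by
      have : (0:ℤ) ≤ rh s n k l := le_trans (Int.natCast_nonneg _) r1'
      exact_mod_cast this
    have hx : 0 ≤ (rh s n k l : ℝ)^(-α) := Real.rpow_nonneg hrh _
    set x := (rh s n k l : ℝ)^(-α) with hxd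
    obtain ⟨g1', g1⟩ := abs_le.1 f1
    obtain ⟨g2, g2u⟩ := abs_le.1 f2'
    obtain ⟨g3, g3u⟩ := abs_le.1 f3'
    have g2' := mul_le_mul_of_nonneg_left g2 hκ0
    have g3' := mul_le_mul_of_nonneg_left g3 hκ0
    have g2u' := mul_le_mul_of_nonneg_left g2u hκ0
    have g3u' := mul_le_mul_of_nonneg_left g3u hκ0
    have g4 : (C1 + κ * C2 + κ * C3) * x * P ≤ (C1 + κ * C2 + κ * C3) * x * (K0 * fb n k l) :=
      mul_le_mul_of_nonneg_left e5 (mul_nonneg (by positivity) hx)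
    have g5 : (C1 + κ * C2 + κ * C3) * x * (K0 * fb n k l) =
        (C1 + κ * C2 + κ * C3) * K0 * x * fb n k l := by ring
    rw [abs_le]
    constructor
    · nlinarith
    · nlinarith

end Pool.Agent.U439.SA
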