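import Mathlib

set_option autoImplicit false

/-! Project SA, package LW2: the analytic part -/

namespace Pool.Agent.U439.SA

open Finset Filter Topology MeasureTheory

theorem abs_lim (I : ℕ → ℝ) (b f ρ : ℕ → ℕ → ℕ → ℝ) (α B1 B2 R0 : ℝ) (hα : 0 < α)
    (hB1 : 0 ≤ B1) (hB2 : 0 ≤ B2) (hf : ∀ n k l, 0 ≤ f n k l)
    (hI : ∀ n, I n = ∑ k ∈ range n, ∑ l ∈ range n, b n k l) (hI0 : ∀ n, 0 ≤ I n)
    (h1 : ∀ n k l, k < n → l < n → b n k l ≤ B1 * f n k l)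
    (h2 : ∀ n k l, k < n → l < n → R0 ≤ ρ n k l → b n k l ≤ B2 * (ρ n k l)^(-α) * f n k l)
    (hS1 : ∃ C : ℝ, 0 ≤ C ∧ ∀ n : ℕ, ∑ k ∈ range n, ∑ l ∈ range n, f n k l ≤ C * (n:ℝ)^((4:ℝ)/3))
    (hS2 : ∀ ε : ℝ, 0 < ε → ∃ (δ : ℝ) (N : ℕ), 0 < δ ∧ ∀ n : ℕ, N ≤ n →
      ∑ k ∈ range n, ∑ l ∈ range n, (if ρ n k l < δ * n then f n k l else 0) ≤
        ε * (n:ℝ)^((4:ℝ)/3)) :
    Tendsto (fun n : ℕ => I n / (2 * (n:ℝ) + 1)^((4:ℝ)/3)) atTop (𝓝 0) := by
  obtain ⟨CS, hCS, hS1⟩ := hS1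
  rw [Metric.tendsto_atTop]
  intro ε hε
  obtain ⟨δ, N, hδ, hN⟩ := hS2 (ε / (2 * (B1 + 1))) (by positivity)
  -- `B2 * CS * (δ n)^(-α) → 0`
  have hlim : Tendsto (fun n : ℕ => B2 * CS * (δ * (n:ℝ))^(-α)) atTop (𝓝 0) := by
    have hb : Tendsto (fun n : ℕ => δ * (n:ℝ)) atTop atTop :=
      Tendsto.const_mul_atTop hδ tendsto_natCast_atTop_atTop
    have := ((tendsto_rpow_neg_atTop hα).comp hb).const_mul (B2 * CS)
    simpa using this
  have hev1 : ∀ᶠ n : ℕ in atTop, B2 * CS * (δ * (n:ℝ))^(-α) < ε / 2 :=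
    hlim.eventually_lt_const (by positivity)
  have hev2 : ∀ᶠ n : ℕ in atTop, max R0 1 ≤ δ * (n:ℝ) :=
    (Tendsto.const_mul_atTop hδ tendsto_natCast_atTop_atTop).eventually_ge_atTop _
  obtain ⟨M, hM⟩ := eventually_atTop.1 (hev1.and (hev2.and (eventually_ge_atTop (max N 1))))
  refine ⟨M, fun n hn => ?_⟩
  obtain ⟨e1, e2, e3⟩ := hM n hn
  have hnN : N ≤ n := (le_max_left _ _).trans e3
  have hn1 : 1 ≤ n := (le_max_right _ _).trans e3
  have hn0 : (0:ℝ) < n := by exact_mod_cast hn1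
  have hδn : 0 < δ * (n:ℝ) := by positivity
  have hR0 : R0 ≤ δ * (n:ℝ) := (le_max_left _ _).trans e2
  have hpow : (0:ℝ) < (n:ℝ)^((4:ℝ)/3) := Real.rpow_pos_of_pos hn0 _
  have hbig : (n:ℝ)^((4:ℝ)/3) ≤ (2 * (n:ℝ) + 1)^((4:ℝ)/3) :=
    Real.rpow_le_rpow hn0.le (by linarith) (by norm_num)
  have hbpos : (0:ℝ) < (2 * (n:ℝ) + 1)^((4:ℝ)/3) := hpow.trans_le hbig
  -- the main estimate
  have key : ∀ k ∈ range n, ∀ l ∈ range n, b n k l ≤
      B1 * (if ρ n k l < δ * n then f n k l else 0) + B2 * (δ * n)^(-α) * f n k l := by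
    intro k hk l hl
    have hk' := mem_range.1 hk
    have hl' := mem_range.1 hl
    have hnn : 0 ≤ B2 * (δ * n)^(-α) * f n k l :=
      mul_nonneg (mul_nonneg hB2 (Real.rpow_nonneg hδn.le _)) (hf n k l)
    split_ifs with h
    · linarith [h1 n k l hk' hl']
    · have hρ : δ * n ≤ ρ n k l := not_lt.1 h
      have := h2 n k l hk' hl' (hR0.trans hρ)
      have h3 : (ρ n k l)^(-α) ≤ (δ * n)^(-α) :=
        Real.rpow_le_rpow_of_nonpos hδn hρ (by linarith)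
      have h4 : B2 * (ρ n k l)^(-α) * f n k l ≤ B2 * (δ * n)^(-α) * f n k l :=
        mul_le_mul_of_nonneg_right (mul_le_mul_of_nonneg_left h3 hB2) (hf n k l)
      linarith
  have hsum : I n ≤ B1 * (ε / (2 * (B1 + 1)) * (n:ℝ)^((4:ℝ)/3)) +
      B2 * (δ * n)^(-α) * (CS * (n:ℝ)^((4:ℝ)/3)) := by
    rw [hI n]
    calc ∑ k ∈ range n, ∑ l ∈ range n, b n k l
        ≤ ∑ k ∈ range n, ∑ l ∈ range n,
          (B1 * (if ρ n k l < δ * n then f n k l else 0) + B2 * (δ * n)^(-α) * f n k l) :=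
          Finset.sum_le_sum fun k hk => Finset.sum_le_sum fun l hl => key k hk l hl
      _ = B1 * (∑ k ∈ range n, ∑ l ∈ range n, (if ρ n k l < δ * n then f n k l else 0)) +
          B2 * (δ * n)^(-α) * ∑ k ∈ range n, ∑ l ∈ range n, f n k l := by
          simp only [Finset.sum_add_distrib, Finset.mul_sum]
      _ ≤ _ := by
          apply add_le_add
          · exact mul_le_mul_of_nonneg_left (hN n hnN) hB1
          · exact mul_le_mul_of_nonneg_left (hS1 n) (mul_nonneg hB2 (Real.rpow_nonneg hδn.le _))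
  rw [Real.dist_eq, sub_zero, abs_of_nonneg (div_nonneg (hI0 n) hbpos.le)]
  rw [div_lt_iff₀ hbpos]
  have h5 : B1 * (ε / (2 * (B1 + 1))) ≤ ε / 2 := by
    rw [mul_div_assoc', div_le_div_iff₀ (by positivity) (by norm_num)]
    nlinarith
  have h6 : I n < ε * (n:ℝ)^((4:ℝ)/3) := by
    have h7 : B2 * (δ * n)^(-α) * (CS * (n:ℝ)^((4:ℝ)/3)) =
        (B2 * CS * (δ * (n:ℝ))^(-α)) * (n:ℝ)^((4:ℝ)/3) := by ring
    have h8 : B1 * (ε / (2 * (B1 + 1)) * (n:ℝ)^((4:ℝ)/3)) =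
        (B1 * (ε / (2 * (B1 + 1)))) * (n:ℝ)^((4:ℝ)/3) := by ring
    rw [h7, h8] at hsum
    nlinarith [mul_lt_mul_of_pos_right e1 hpow, mul_le_mul_of_nonneg_right h5 hpow.le]
  exact h6.trans_le (mul_le_mul_of_nonneg_left hbig hε.le)

theorem integral_sq {Ω : Type*} [MeasurableSpace Ω] (μ : Measure Ω) [IsProbabilityMeasure μ]
    (X Z : ℕ → Set Ω) (hX : ∀ k, MeasurableSet (X k)) (hZ : ∀ k, MeasurableSet (Z k)) (κ : ℝ)
    (n : ℕ) :
    ∫ ω, ((∑ k ∈ range n, (X k).indicator (fun _ => (1:ℝ)) ω) -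
      κ * ∑ k ∈ range n, (Z k).indicator (fun _ => (1:ℝ)) ω)^2 ∂μ =
    ∑ k ∈ range n, ∑ l ∈ range n, (μ.real (X k ∩ X l) - κ * μ.real (X k ∩ Z l) -
      κ * μ.real (Z k ∩ X l) + κ^2 * μ.real (Z k ∩ Z l)) := by
  have hind : ∀ S : Set Ω, MeasurableSet S → Integrable (S.indicator (fun _ => (1:ℝ))) μ :=
    fun S hS => (integrable_const _).indicator hS
  have hint : ∀ S : Set Ω, MeasurableSet S → ∫ ω, S.indicator (fun _ => (1:ℝ)) ω ∂μ = μ.real S := by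
    intro S hS
    rw [integral_indicator hS]
    simp
  have hmul : ∀ (S T : Set Ω) (ω : Ω), S.indicator (fun _ => (1:ℝ)) ω *
      T.indicator (fun _ => (1:ℝ)) ω = (S ∩ T).indicator (fun _ => (1:ℝ)) ω := by
    intro S T ω
    by_cases hS : ω ∈ S
    · by_cases hT : ω ∈ T
      · simp [hS, hT]
      · simp [hS, hT]
    · simp [hS]
  have hpt : ∀ ω, ((∑ k ∈ range n, (X k).indicator (fun _ => (1:ℝ)) ω) -
      κ * ∑ k ∈ range n, (Z k).indicator (fun _ => (1:ℝ)) ω)^2 =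
      ∑ k ∈ range n, ∑ l ∈ range n, ((X k ∩ X l).indicator (fun _ => (1:ℝ)) ω -
        κ * (X k ∩ Z l).indicator (fun _ => (1:ℝ)) ω -
        κ * (Z k ∩ X l).indicator (fun _ => (1:ℝ)) ω +
        κ^2 * (Z k ∩ Z l).indicator (fun _ => (1:ℝ)) ω) := by
    intro ω
    have h1 : (∑ k ∈ range n, (X k).indicator (fun _ => (1:ℝ)) ω) -
      κ * ∑ k ∈ range n, (Z k).indicator (fun _ => (1:ℝ)) ω =
      ∑ k ∈ range n, ((X k).indicator (fun _ => (1:ℝ)) ω -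
        κ * (Z k).indicator (fun _ => (1:ℝ)) ω) := by
      rw [Finset.sum_sub_distrib, Finset.mul_sum]
    rw [h1, sq, Finset.sum_mul_sum]
    refine Finset.sum_congr rfl fun k _ => Finset.sum_congr rfl fun l _ => ?_
    rw [← hmul, ← hmul, ← hmul, ← hmul]
    ring
  have hT : ∀ k l, Integrable (fun ω => (X k ∩ X l).indicator (fun _ => (1:ℝ)) ω -
        κ * (X k ∩ Z l).indicator (fun _ => (1:ℝ)) ω -
        κ * (Z k ∩ X l).indicator (fun _ => (1:ℝ)) ω +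
        κ^2 * (Z k ∩ Z l).indicator (fun _ => (1:ℝ)) ω) μ := fun k l =>
    (((hind _ ((hX k).inter (hX l))).sub ((hind _ ((hX k).inter (hZ l))).const_mul κ)).sub
      ((hind _ ((hZ k).inter (hX l))).const_mul κ)).add
      ((hind _ ((hZ k).inter (hZ l))).const_mul (κ^2))
  rw [integral_congr_ae (Filter.Eventually.of_forall hpt)]
  rw [integral_finsetSum _ (fun k _ => integrable_finsetSum _ fun l _ => hT k l)]
  refine Finset.sum_congr rfl fun k _ => ?_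
  rw [integral_finsetSum _ (fun l _ => hT k l)]
  refine Finset.sum_congr rfl fun l _ => ?_
  have i1 : Integrable (fun ω => (X k ∩ X l).indicator (fun _ => (1:ℝ)) ω) μ :=
    hind _ ((hX k).inter (hX l))
  have i2 : Integrable (fun ω => κ * (X k ∩ Z l).indicator (fun _ => (1:ℝ)) ω) μ :=
    (hind _ ((hX k).inter (hZ l))).const_mul κ
  have i3 : Integrable (fun ω => κ * (Z k ∩ X l).indicator (fun _ => (1:ℝ)) ω) μ :=
    (hind _ ((hZ k).inter (hX l))).const_mul κ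
  have i4 : Integrable (fun ω => κ^2 * (Z k ∩ Z l).indicator (fun _ => (1:ℝ)) ω) μ :=
    (hind _ ((hZ k).inter (hZ l))).const_mul (κ^2)
  have i12 : Integrable (fun ω => (X k ∩ X l).indicator (fun _ => (1:ℝ)) ω -
        κ * (X k ∩ Z l).indicator (fun _ => (1:ℝ)) ω) μ := i1.sub i2
  have i123 : Integrable (fun ω => (X k ∩ X l).indicator (fun _ => (1:ℝ)) ω -
        κ * (X k ∩ Z l).indicator (fun _ => (1:ℝ)) ω -
        κ * (Z k ∩ X l).indicator (fun _ => (1:ℝ)) ω) μ := i12.sub i3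
  rw [integral_add i123 i4, integral_sub i12 i3, integral_sub i1 i2,
    integral_const_mul, integral_const_mul, integral_const_mul,
    hint _ ((hX k).inter (hX l)), hint _ ((hX k).inter (hZ l)), hint _ ((hZ k).inter (hX l)),
    hint _ ((hZ k).inter (hZ l))]

end Pool.Agent.U439.SA
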